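import Pool.Agent.Lib.MP_fc0021_co.Ins.Final

set_option autoImplicit false

namespace Pool.Agent.Results.MP_fc0021_co.PowerSaving

open Filter Pool.Agent.Lib.MP_fc0021_co.Ins

/-- For every `a < 1/6` the Poljak-Rödl function satisfies `f(n) ≤ n / (log n) ^ a` for all large
`n`, where `f(n)` is the least element of `productChromatic n`. -/
theorem result (a : ℝ) (ha0 : 0 < a) (ha : a < 1 / 6) :
    ∀ᶠ n : ℕ in atTop, ∃ m : ℕ, IsLeast (productChromatic n) m ∧
      (m : ℝ) ≤ n / (Real.log n) ^ a :=
  rate a ha0 ha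

end Pool.Agent.Results.MP_fc0021_co.PowerSaving
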